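import Pool.Agent.Zk51.RI.Growth

/-!
# Beilinson–Soulé vanishing and the size of the higher Chow groups of `Spec ℂ`

`HigherChowData` collects the groups of the problem and the known theorems about them which are used:
`K j n R` is the weight `j` part `K_n(R)_ℚ^(j)` of the rational `K`-theory of a commutative ring `R`
(Adams eigenspaces; for a field `F` it is `CH^j(F, n)_ℚ`, Bloch and Levine), `CH j n X` is the
rational higher Chow group of a complex variety `X`, and `IsSmProj` is the class of smooth projective
complex varieties.

Theorem. Let `2 J < n`. The following are equivalent: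
(1) `CH^j(X, n)_ℚ = 0` for all smooth projective complex varieties `X` and all `j ≤ J`;
(2) for all `j ≤ J` the dimension of `CH^j(Spec ℂ, n)_ℚ` over `ℚ` is smaller than the cardinality of
    the continuum;
(3) for all `j ≤ J` and all `α ∈ CH^j(Spec ℂ, n)_ℚ` the span of the conjugates of `α` under the
    automorphisms of the field `ℂ` has dimension smaller than the cardinality of the continuum;
(4) for all `j ≤ J` the space `CH^j(Spec Ω, n)_ℚ` is finite dimensional, for `Ω` an algebraically
    closed field of characteristic zero and of countably infinite transcendence degree;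
(5) for all `j ≤ J` and all `d` there is an `m` such that the dimension of `CH^j(Spec L, n)_ℚ` is
    smaller than `m` for `L` algebraically closed of characteristic zero and of transcendence degree
    `m d`.
-/

set_option autoImplicit false

open CategoryTheory AlgebraicGeometry Cardinal Pool.Agent.Zk51.RI

namespace Pool.Agent.Results.MP_d72c81_ag.ZeroOrContinuum

/-- Rational higher Chow groups of fields and of smooth projective complex varieties, with the known
theorems which are used. -/
structure HigherChowData where
  /-- the weight `j` part of the rational `K`-group `K_n` of a commutative ring -/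
  K : ℕ → ℕ → CommRingCat.{0} ⥤ ModuleCat.{0} ℚ
  /-- `K`-theory commutes with directed unions of rings -/
  continuous : ∀ j n, IsContRing (K j n)
  /-- injectivity for finite extensions of fields (by the transfer) -/
  transfer : ∀ (j n : ℕ) (F E : Type) [Field F] [Field E] [Algebra F E], FiniteDimensional F E →
    Function.Injective ((K j n).map (CommRingCat.ofHom (algebraMap F E))).hom
  /-- Borel's theorem for number fields -/
  borel : ∀ j n : ℕ, 2 * j < n → ∀ (F : Type) [Field F] [NumberField F],
    Subsingleton ((K j n).obj (.of F))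
  /-- the rational higher Chow groups of complex varieties -/
  CH : ℕ → ℕ → Over (Spec (.of ℂ)) → ModuleCat.{0} ℚ
  /-- the class of smooth projective varieties -/
  IsSmProj : ObjectProperty (Over (Spec (.of ℂ)))
  /-- the point is smooth projective -/
  point : IsSmProj (Over.mk (𝟙 (Spec (.of ℂ))))
  /-- the higher Chow groups of the point -/
  pointIso : ∀ j n, Nonempty (CH j n (Over.mk (𝟙 (Spec (.of ℂ)))) ≅ (K j n).obj (.of ℂ))
  /-- the coniveau spectral sequence: `CH^j(X, n)` vanishes if `CH^(j - p)(κ(x), n)` vanishes for all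
  points `x` of codimension `p ≤ j` -/
  coniveau : ∀ (X : Over (Spec (.of ℂ))), IsSmProj X → ∀ j n : ℕ,
    (∀ (x : X.left) (p : ℕ), p ≤ j → ringKrullDim (X.left.presheaf.stalk x) = p →
      Subsingleton ((K (j - p) n).obj (X.left.residueField x))) →
    Subsingleton (CH j n X)

lemma trdeg_complex : Algebra.trdeg ℚ ℂ = 𝔠 := by
  obtain ⟨ι, x, hx⟩ := exists_isTranscendenceBasis' ℚ ℂ
  rw [← hx.cardinalMk_eq_trdeg, ← Cardinal.mk_complex]
  exact (IsAlgClosed.cardinal_eq_cardinal_transcendence_basis_of_aleph0_lt' x hx
    Cardinal.mkRat.le (by rw [Cardinal.mk_complex]; exact Cardinal.aleph0_lt_continuum)).symm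

/-- Residue fields of complex schemes have characteristic zero. -/
lemma charZero_residueField (X : Over (Spec (.of ℂ))) (x : X.left) :
    CharZero (X.left.residueField x) := by
  let f : Spec (X.left.residueField x) ⟶ Spec (.of ℂ) := X.left.fromSpecResidueField x ≫ X.hom
  let g : CommRingCat.of ℂ ⟶ X.left.residueField x := Spec.preimage f
  exact charZero_of_injective_ringHom (f := g.hom) g.hom.injective

/-- **Beilinson–Soulé vanishing for smooth projective complex varieties is equivalent to a bound for
the dimensions of the higher Chow groups of `Spec ℂ`.** -/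
theorem result (T : HigherChowData) (J n : ℕ) (hn : 2 * J < n)
    (Ω : Type) [Field Ω] [IsAlgClosed Ω] [Algebra ℚ Ω] (hΩ : Algebra.trdeg ℚ Ω = ℵ₀) :
    List.TFAE
      [∀ (X : Over (Spec (.of ℂ))), T.IsSmProj X → ∀ j ≤ J, Subsingleton (T.CH j n X),
        ∀ j ≤ J, Module.rank ℚ ((T.K j n).obj (.of ℂ)) < 𝔠,
        ∀ j ≤ J, ∀ α : (T.K j n).obj (.of ℂ),
          Module.rank ℚ (Submodule.span ℚ (Set.range fun σ : ℂ ≃+* ℂ =>
            ((T.K j n).map (CommRingCat.ofHom (σ : ℂ →+* ℂ))).hom α)) < 𝔠,
        ∀ j ≤ J, Module.rank ℚ ((T.K j n).obj (.of Ω)) < ℵ₀,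
        ∀ j ≤ J, ∀ d : ℕ, ∃ m : ℕ, ∀ (L : Type) [Field L] [IsAlgClosed L] [Algebra ℚ L],
          Algebra.trdeg ℚ L = ((m * d : ℕ) : Cardinal.{0}) →
          Module.rank ℚ ((T.K j n).obj (.of L)) < (m : Cardinal.{0})] := by
  have hbase : ∀ j ≤ J, ∀ (F : Type) [Field F] [Algebra ℚ F], FiniteDimensional ℚ F →
      Subsingleton ((T.K j n).obj (.of F)) := by
    intro j hj F _ _ hF
    have h1 : CharZero F := charZero_of_injective_algebraMap (algebraMap ℚ F).injective
    have h2 : NumberField F := by
      refine { to_charZero := h1, to_finiteDimensional := ?_ }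
      convert hF
      exact Subsingleton.elim _ _
    exact T.borel j n (by omega) F
  have hC := fun (j : ℕ) (hj : j ≤ J) => fields_tfae (T.continuous j n) ℚ (hbase j hj)
    (T.transfer j n) ℂ (by rw [trdeg_complex]; exact Cardinal.aleph0_le_continuum)
  have hΩ' := fun (j : ℕ) (hj : j ≤ J) => fields_tfae (T.continuous j n) ℚ (hbase j hj)
    (T.transfer j n) Ω hΩ.ge
  rw [trdeg_complex] at hC
  rw [hΩ] at hΩ'
  tfae_have 1 → 2 := by
    intro h j hj
    have h1 := h _ T.point j hj
    obtain ⟨e⟩ := T.pointIso j n
    have h2 : Subsingleton ((T.K j n).obj (.of ℂ)) := e.toLinearEquiv.symm.toEquiv.subsingleton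
    rw [rank_subsingleton']
    exact Cardinal.continuum_pos
  tfae_have 2 → 3 := fun h j hj => ((hC j hj).out 1 2).1 (h j hj)
  tfae_have 3 → 1 := by
    intro h X hX j hj
    refine T.coniveau X hX j n fun x p hp _ => ?_
    have h1 := charZero_residueField X x
    have h2 := ((hC (j - p) (by omega)).out 2 0).1 (h (j - p) (by omega))
    exact h2 (X.left.residueField x)
  tfae_have 2 → 4 := fun h j hj => ((hΩ' j hj).out 0 1).1 (((hC j hj).out 1 0).1 (h j hj))
  tfae_have 4 → 5 := fun h j hj => ((hΩ' j hj).out 1 3).1 (h j hj)
  tfae_have 5 → 2 := fun h j hj => ((hC j hj).out 3 1).1 (h j hj)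
  tfae_finish

end Pool.Agent.Results.MP_d72c81_ag.ZeroOrContinuum
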